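import Pool.Agent.helper95.FJ.SpecC

/-!
# Row fj:KIJ (MP_ad8ced_nt): the second moment
-/

set_option autoImplicit false

open Finset

namespace Pool.Agent.FJ

open Pool.Agent.FI

theorem KIJ_div (N D n w : ℝ) (c : ℝ) (hN : 0 < N) (hc : 0 ≤ c) (hD : 0 ≤ D) (hn : N ≤ |n|)
    (hw : |w| ≤ c * N * D) : |w / n| ≤ c * D := by
  rw [abs_div]
  have hn0 : 0 < |n| := lt_of_lt_of_le hN hn
  rw [div_le_iff₀ hn0]
  calc |w| ≤ c * N * D := hw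
    _ = c * D * N := by ring
    _ ≤ c * D * |n| := mul_le_mul_of_nonneg_left hn (by positivity)

theorem KIJ_rho (N D x A t n S : ℝ) (hN : 0 < N) (hD : 0 ≤ D) (hx : 0 < x) (hAx : A ≤ x)
    (hn : N ≤ |n|) (h : |S - n * t| ≤ 2 * A * D / x) : |S / n - t| * N ≤ 2 * D := by
  have hn0 : 0 < |n| := lt_of_lt_of_le hN hn
  have hn1 : n ≠ 0 := abs_pos.1 hn0
  have e1 : S / n - t = (S - n * t) / n := by field_simp
  have h1 : 2 * A * D / x ≤ 2 * D := by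
    rw [div_le_iff₀ hx]
    calc 2 * A * D = 2 * D * A := by ring
      _ ≤ 2 * D * x := mul_le_mul_of_nonneg_left hAx (by positivity)
  rw [e1, abs_div, div_mul_eq_mul_div, div_le_iff₀ hn0]
  calc |S - n * t| * N ≤ 2 * D * N := mul_le_mul_of_nonneg_right (h.trans h1) hN.le
    _ ≤ 2 * D * |n| := mul_le_mul_of_nonneg_left hn (by positivity)

theorem KIJ_real (N D x A t n n₁ S S₁ a a' b b' u u₁ : ℝ) (hN : 0 < N) (hD : 0 ≤ D) (hx : 0 < x)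
    (hAx : A ≤ x) (hn : N ≤ |n|) (hn₁ : N ≤ |n₁|) (h : |S - n * t| ≤ 2 * A * D / x)
    (h₁ : |S₁ - n₁ * t| ≤ 2 * A * D / x) (ha : a ^ 2 ≤ 8 * N) (hb : b ^ 2 ≤ 8 * N)
    (hu : u ^ 2 ≤ 128 * N * D ^ 2) (hu₁ : u₁ ^ 2 ≤ 128 * N * D ^ 2) (e : n * a' = S * a + u)
    (e₁ : n₁ * b' = S₁ * b + u₁) : |a' * b - a * b'| ≤ 96 * D := by
  have hn0 : n ≠ 0 := abs_pos.1 (lt_of_lt_of_le hN hn)
  have hn1 : n₁ ≠ 0 := abs_pos.1 (lt_of_lt_of_le hN hn₁)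
  have ea : a' = S / n * a + u / n := by
    field_simp
    linarith
  have eb : b' = S₁ / n₁ * b + u₁ / n₁ := by
    field_simp
    linarith
  have key : a' * b - a * b' = (S / n - t) * (a * b) - (S₁ / n₁ - t) * (a * b) + u * b / n - a * u₁ / n₁ := by
    rw [ea, eb]
    ring
  have r1 := KIJ_rho N D x A t n S hN hD hx hAx hn h
  have r2 := KIJ_rho N D x A t n₁ S₁ hN hD hx hAx hn₁ h₁
  have hab : |a * b| ≤ 8 * N := by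
    refine abs_le_of_sq_le_sq ?_ (by positivity)
    rw [mul_pow]
    calc a ^ 2 * b ^ 2 ≤ 8 * N * (8 * N) := mul_le_mul ha hb (sq_nonneg _) (by positivity)
      _ = (8 * N) ^ 2 := by ring
  have t1 : |(S / n - t) * (a * b)| ≤ 16 * D := by
    rw [abs_mul]
    calc |S / n - t| * |a * b| ≤ |S / n - t| * (8 * N) := mul_le_mul_of_nonneg_left hab (abs_nonneg _)
      _ = 8 * (|S / n - t| * N) := by ring
      _ ≤ 8 * (2 * D) := mul_le_mul_of_nonneg_left r1 (by norm_num)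
      _ = 16 * D := by ring
  have t2 : |(S₁ / n₁ - t) * (a * b)| ≤ 16 * D := by
    rw [abs_mul]
    calc |S₁ / n₁ - t| * |a * b| ≤ |S₁ / n₁ - t| * (8 * N) := mul_le_mul_of_nonneg_left hab (abs_nonneg _)
      _ = 8 * (|S₁ / n₁ - t| * N) := by ring
      _ ≤ 8 * (2 * D) := mul_le_mul_of_nonneg_left r2 (by norm_num)
      _ = 16 * D := by ring
  have t3 : |u * b / n| ≤ 32 * D := by
    refine KIJ_div N D n (u * b) 32 hN (by norm_num) hD hn ?_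
    refine abs_le_of_sq_le_sq ?_ (by positivity)
    rw [mul_pow]
    calc u ^ 2 * b ^ 2 ≤ 128 * N * D ^ 2 * (8 * N) := mul_le_mul hu hb (sq_nonneg _) (by positivity)
      _ = (32 * N * D) ^ 2 := by ring
  have t4 : |a * u₁ / n₁| ≤ 32 * D := by
    refine KIJ_div N D n₁ (a * u₁) 32 hN (by norm_num) hD hn₁ ?_
    refine abs_le_of_sq_le_sq ?_ (by positivity)
    rw [mul_pow]
    calc a ^ 2 * u₁ ^ 2 ≤ 8 * N * (128 * N * D ^ 2) := mul_le_mul ha hu₁ (sq_nonneg _) (by positivity)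
      _ = (32 * N * D) ^ 2 := by ring
  rw [key]
  rw [abs_le] at t1 t2 t3 t4 ⊢
  constructor
  · linarith
  · linarith

/-- the integer -/
theorem KIJ_int (e D : ℕ) (v : ℤ) (he : 1 ≤ e) (hD : 1 ≤ D) (hdvd : ((e * D : ℕ) : ℤ) ∣ v)
    (hv : |(v : ℝ)| ≤ 96 * D) : v / ((e * D : ℕ) : ℤ) ∈ Icc (-100 : ℤ) 100 := by
  obtain ⟨k, hk⟩ := hdvd
  have hpos : 0 < ((e * D : ℕ) : ℤ) := by
    have : 0 < e * D := Nat.mul_pos he hD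
    exact_mod_cast this
  have h1 : v / ((e * D : ℕ) : ℤ) = k := by
    rw [hk, Int.mul_ediv_cancel_left _ hpos.ne']
  rw [h1, Finset.mem_Icc]
  have hDR : (0 : ℝ) < D := by exact_mod_cast hD
  have heR : (1 : ℝ) ≤ e := by exact_mod_cast he
  have h2 : |(k : ℝ)| ≤ 96 := by
    have h3 : |(v : ℝ)| = e * D * |(k : ℝ)| := by
      rw [hk]
      push_cast
      rw [abs_mul, abs_of_nonneg (by positivity)]
    rw [h3] at hv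
    have h4 : (D : ℝ) * |(k : ℝ)| ≤ e * D * |(k : ℝ)| := by
      have : 0 ≤ (D : ℝ) * |(k : ℝ)| := by positivity
      nlinarith
    have h5 : (D : ℝ) * |(k : ℝ)| ≤ D * 96 := by linarith
    exact le_of_mul_le_mul_left h5 hDR
  rw [abs_le] at h2
  constructor
  · have : (-96 : ℝ) ≤ k := h2.1
    have h6 : (-96 : ℤ) ≤ k := by exact_mod_cast this
    linarith
  · have h6 : k ≤ (96 : ℤ) := by exact_mod_cast h2.2
    linarith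

theorem KIJ_lin {a b c d x y x' y' : ℤ} (hdet : a * d - c * b ≠ 0) (h1 : c * x - a * y = c * x' - a * y')
    (h2 : d * x - b * y = d * x' - b * y') : x = x' ∧ y = y' := by
  have e1 : (a * d - c * b) * (x - x') = 0 := by
    linear_combination a * h2 - b * h1
  have e2 : (a * d - c * b) * (y - y') = 0 := by
    linear_combination c * h2 - d * h1
  constructor
  · rcases mul_eq_zero.1 e1 with h | h
    · exact absurd h hdet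
    · linarith
  · rcases mul_eq_zero.1 e2 with h | h
    · exact absurd h hdet
    · linarith

/-- facts on the elements of `ZD N` -/
theorem KIJ_ZD (hFFC : FFC_stmt) (N : ℕ) (z : ℤ × ℤ) (hz : z ∈ ZD N) :
    z.1 % 2 = 1 ∧ IsCoprime z.1 z.2 ∧ (z.1 : ℝ) ^ 2 ≤ 4 * N ∧ (z.2 : ℝ) ^ 2 ≤ 2 * N ∧
      (N : ℝ) ≤ |((N8 z : ℤ) : ℝ)| := by
  classical
  unfold ZD at hz
  rw [Finset.mem_filter] at hz
  obtain ⟨hF, hn, hc⟩ := hz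
  have hb := (hFFC (2 * N)).2 z hF
  unfold FF at hF
  rw [Finset.mem_filter] at hF
  refine ⟨hF.2.1.1, hc, ?_, ?_, ?_⟩
  · have : z.1 ^ 2 ≤ 2 * ((2 * N : ℕ) : ℤ) := hb.1
    have h1 : ((z.1 ^ 2 : ℤ) : ℝ) ≤ ((2 * ((2 * N : ℕ) : ℤ) : ℤ) : ℝ) := by exact_mod_cast this
    push_cast at h1
    linarith
  · have : z.2 ^ 2 ≤ ((2 * N : ℕ) : ℤ) := hb.2
    have h1 : ((z.2 ^ 2 : ℤ) : ℝ) ≤ (((2 * N : ℕ) : ℤ) : ℝ) := by exact_mod_cast this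
    push_cast at h1
    linarith
  · have h1 : ((nn z : ℕ) : ℝ) = |((N8 z : ℤ) : ℝ)| := by
      unfold nn
      exact Nat.cast_natAbs (α := ℝ) (N8 z) |>.trans (by push_cast; rfl)
    rw [← h1]
    exact_mod_cast hn.le

/-- the four numbers are bounded -/
theorem KIJ_bd (hFFC : FFC_stmt) (x N A e : ℕ) (m : ℤ) (K : ℕ) (hx : 1 ≤ x) (hN : 1 ≤ N) (hAx : A ≤ x)
    (he : e = 1 ∨ e = 2) (z z' z₁ z₁' : ℤ × ℤ) (hz : z ∈ ZD N) (hz₁ : z₁ ∈ ZD N)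
    (hdd : (dl z₁ z₁').natAbs = (dl z z').natAbs)
    (hm : |(sp z z' : ℝ) - N8 z * (2 : ℝ) ^ ((m : ℝ) / K)| ≤ 2 * A * (dl z z').natAbs / x)
    (hm₁ : |(sp z₁ z₁' : ℝ) - N8 z₁ * (2 : ℝ) ^ ((m : ℝ) / K)| ≤ 2 * A * (dl z₁ z₁').natAbs / x) :
    |(((e * z'.2) * (e * z₁.2) - (e * z.2) * (e * z₁'.2) : ℤ) : ℝ)| ≤ 96 * (dl z z').natAbs ∧
    |(((e * z'.2) * z₁.1 - (e * z.2) * z₁'.1 : ℤ) : ℝ)| ≤ 96 * (dl z z').natAbs ∧
    |((z'.1 * (e * z₁.2) - z.1 * (e * z₁'.2) : ℤ) : ℝ)| ≤ 96 * (dl z z').natAbs ∧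
    |((z'.1 * z₁.1 - z.1 * z₁'.1 : ℤ) : ℝ)| ≤ 96 * (dl z z').natAbs := by
  obtain ⟨-, -, b1, b2, b3⟩ := KIJ_ZD hFFC N z hz
  obtain ⟨-, -, c1, c2, c3⟩ := KIJ_ZD hFFC N z₁ hz₁
  have hNR : (0 : ℝ) < N := by exact_mod_cast hN
  have hxR : (0 : ℝ) < x := by exact_mod_cast hx
  have hAR : (A : ℝ) ≤ x := by exact_mod_cast hAx
  have heR : (1 : ℝ) ≤ e ∧ (e : ℝ) ^ 2 ≤ 4 := by
    rcases he with h | h
    · rw [h]
      norm_num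
    · rw [h]
      norm_num
  rw [hdd] at hm₁
  obtain ⟨D, hD⟩ : ∃ D : ℝ, D = ((dl z z').natAbs : ℝ) := ⟨_, rfl⟩
  have hD0 : 0 ≤ D := by rw [hD]; exact Nat.cast_nonneg _
  rw [← hD] at hm hm₁ ⊢
  have hdsq : ((dl z z' : ℤ) : ℝ) ^ 2 = D ^ 2 := by
    rw [hD, Nat.cast_natAbs]
    push_cast
    rw [sq_abs]
  have hdsq₁ : ((dl z₁ z₁' : ℤ) : ℝ) ^ 2 = D ^ 2 := by
    rw [hD, ← hdd, Nat.cast_natAbs]
    push_cast
    rw [sq_abs]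
  have q1 : ((e : ℝ) * z.2) ^ 2 ≤ 8 * N := by
    rw [mul_pow]
    calc (e : ℝ) ^ 2 * (z.2 : ℝ) ^ 2 ≤ 4 * (2 * N) := mul_le_mul heR.2 b2 (sq_nonneg _) (by norm_num)
      _ = 8 * N := by ring
  have q2 : (z.1 : ℝ) ^ 2 ≤ 8 * N := by linarith
  have q3 : ((e : ℝ) * z₁.2) ^ 2 ≤ 8 * N := by
    rw [mul_pow]
    calc (e : ℝ) ^ 2 * (z₁.2 : ℝ) ^ 2 ≤ 4 * (2 * N) := mul_le_mul heR.2 c2 (sq_nonneg _) (by norm_num)
      _ = 8 * N := by ring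
  have q4 : (z₁.1 : ℝ) ^ 2 ≤ 8 * N := by linarith
  have w1 : (-((e : ℝ) * z.1 * (dl z z' : ℤ))) ^ 2 ≤ 128 * N * D ^ 2 := by
    have e1 : (-((e : ℝ) * z.1 * (dl z z' : ℤ))) ^ 2 = (e : ℝ) ^ 2 * (z.1 : ℝ) ^ 2 * D ^ 2 := by
      rw [← hdsq]
      ring
    rw [e1]
    have e2 : (e : ℝ) ^ 2 * (z.1 : ℝ) ^ 2 ≤ 4 * (4 * N) := mul_le_mul heR.2 b1 (sq_nonneg _) (by norm_num)
    have e3 := mul_le_mul_of_nonneg_right e2 (sq_nonneg D)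
    have e4 : 0 ≤ (N : ℝ) * D ^ 2 := by positivity
    nlinarith
  have w2 : (-(8 * (z.2 : ℝ) * (dl z z' : ℤ))) ^ 2 ≤ 128 * N * D ^ 2 := by
    have e1 : (-(8 * (z.2 : ℝ) * (dl z z' : ℤ))) ^ 2 = 64 * (z.2 : ℝ) ^ 2 * D ^ 2 := by
      rw [← hdsq]
      ring
    rw [e1]
    have e3 := mul_le_mul_of_nonneg_right b2 (sq_nonneg D)
    nlinarith
  have w3 : (-((e : ℝ) * z₁.1 * (dl z₁ z₁' : ℤ))) ^ 2 ≤ 128 * N * D ^ 2 := by
    have e1 : (-((e : ℝ) * z₁.1 * (dl z₁ z₁' : ℤ))) ^ 2 = (e : ℝ) ^ 2 * (z₁.1 : ℝ) ^ 2 * D ^ 2 := by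
      rw [← hdsq₁]
      ring
    rw [e1]
    have e2 : (e : ℝ) ^ 2 * (z₁.1 : ℝ) ^ 2 ≤ 4 * (4 * N) := mul_le_mul heR.2 c1 (sq_nonneg _) (by norm_num)
    have e3 := mul_le_mul_of_nonneg_right e2 (sq_nonneg D)
    have e4 : 0 ≤ (N : ℝ) * D ^ 2 := by positivity
    nlinarith
  have w4 : (-(8 * (z₁.2 : ℝ) * (dl z₁ z₁' : ℤ))) ^ 2 ≤ 128 * N * D ^ 2 := by
    have e1 : (-(8 * (z₁.2 : ℝ) * (dl z₁ z₁' : ℤ))) ^ 2 = 64 * (z₁.2 : ℝ) ^ 2 * D ^ 2 := by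
      rw [← hdsq₁]
      ring
    rw [e1]
    have e3 := mul_le_mul_of_nonneg_right c2 (sq_nonneg D)
    nlinarith
  have f1 : ((N8 z : ℤ) : ℝ) * ((e : ℝ) * z'.2) = ((sp z z' : ℤ) : ℝ) * ((e : ℝ) * z.2) +
      -((e : ℝ) * z.1 * (dl z z' : ℤ)) := by
    unfold N8 sp dl
    push_cast
    ring
  have f2 : ((N8 z : ℤ) : ℝ) * (z'.1 : ℝ) = ((sp z z' : ℤ) : ℝ) * (z.1 : ℝ) +
      -(8 * (z.2 : ℝ) * (dl z z' : ℤ)) := by
    unfold N8 sp dl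
    push_cast
    ring
  have f3 : ((N8 z₁ : ℤ) : ℝ) * ((e : ℝ) * z₁'.2) = ((sp z₁ z₁' : ℤ) : ℝ) * ((e : ℝ) * z₁.2) +
      -((e : ℝ) * z₁.1 * (dl z₁ z₁' : ℤ)) := by
    unfold N8 sp dl
    push_cast
    ring
  have f4 : ((N8 z₁ : ℤ) : ℝ) * (z₁'.1 : ℝ) = ((sp z₁ z₁' : ℤ) : ℝ) * (z₁.1 : ℝ) +
      -(8 * (z₁.2 : ℝ) * (dl z₁ z₁' : ℤ)) := by
    unfold N8 sp dl
    push_cast
    ring
  refine ⟨?_, ?_, ?_, ?_⟩
  · have := KIJ_real N D x A _ _ _ _ _ _ _ _ _ _ _ hNR hD0 hxR hAR b3 c3 hm hm₁ q1 q3 w1 w3 f1 f3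
    push_cast
    exact this
  · have := KIJ_real N D x A _ _ _ _ _ _ _ _ _ _ _ hNR hD0 hxR hAR b3 c3 hm hm₁ q1 q4 w1 w4 f1 f4
    push_cast
    exact this
  · have := KIJ_real N D x A _ _ _ _ _ _ _ _ _ _ _ hNR hD0 hxR hAR b3 c3 hm hm₁ q2 q3 w2 w3 f2 f3
    push_cast
    exact this
  · have := KIJ_real N D x A _ _ _ _ _ _ _ _ _ _ _ hNR hD0 hxR hAR b3 c3 hm hm₁ q2 q4 w2 w4 f2 f4
    push_cast
    exact this

theorem KIJ_dvd (D ω a a' b b' : ℤ) (h : D ∣ a' - ω * a) (h' : D ∣ b' - ω * b) : D ∣ a' * b - a * b' := by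
  have e : a' * b - a * b' = (a' - ω * a) * b - a * (b' - ω * b) := by ring
  rw [e]
  exact dvd_sub (Dvd.dvd.mul_right h b) (Dvd.dvd.mul_left h' a)

theorem KIJ (hFFC : FFC_stmt) : KIJ_stmt := by
  classical
  refine ⟨201 ^ 4, ?_⟩
  intro om hom x N A K₁ K hx hN hAx hK e he p hp
  have he1 : 1 ≤ e := by omega
  have hPr : ∀ p' ∈ Pr x N A K₁, p'.1 ∈ ZD N ∧ p'.2 ∈ ZD N ∧ dl p'.1 p'.2 ≠ 0 := by
    intro p' hp'
    unfold Pr at hp'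
    rw [Finset.mem_filter, Finset.mem_product] at hp'
    refine ⟨hp'.1.1, hp'.1.2, ?_⟩
    intro h
    have := hp'.2.1
    rw [h] at this
    simp at this
  obtain ⟨hz, hz', hdl⟩ := hPr p hp
  have hD1 : 1 ≤ (dl p.1 p.2).natAbs := by omega
  -- congruences
  have hcg : ∀ p' ∈ Pr x N A K₁, (dl p'.1 p'.2).natAbs = (dl p.1 p.2).natAbs →
      ((e * (dl p.1 p.2).natAbs : ℕ) : ℤ) ∣ (e * p'.2.2 : ℤ) - om e p'.1 p'.2 * (e * p'.1.2) ∧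
      ((e * (dl p.1 p.2).natAbs : ℕ) : ℤ) ∣ p'.2.1 - om e p'.1 p'.2 * p'.1.1 := by
    intro p' hp' hdd
    obtain ⟨g1, g2, g3⟩ := hPr p' hp'
    obtain ⟨o1, o2, -, -, -⟩ := KIJ_ZD hFFC N p'.1 g1
    obtain ⟨o1', o2', -, -, -⟩ := KIJ_ZD hFFC N p'.2 g2
    have h := (hom e he p'.1 p'.2 o1 o1' o2 o2' g3).2
    have hdv : ∀ t : ℤ, (e : ℤ) * dl p'.1 p'.2 ∣ t → ((e * (dl p.1 p.2).natAbs : ℕ) : ℤ) ∣ t := by
      intro t ht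
      rw [← hdd]
      rw [← Int.natAbs_dvd_natAbs] at ht ⊢
      rw [Int.natAbs_mul, Int.natAbs_natCast] at ht
      rw [Int.natAbs_natCast]
      exact ht
    constructor
    · refine hdv _ ((h _ _).1 ⟨1, 0, ?_, ?_⟩)
      · ring
      · ring
    · refine hdv _ ((h _ _).1 ⟨0, 1, ?_, ?_⟩)
      · ring
      · ring
  obtain ⟨y1, y2⟩ := hcg p hp rfl
  obtain ⟨Dz, hDz⟩ : ∃ Dz : ℤ, Dz = ((e * (dl p.1 p.2).natAbs : ℕ) : ℤ) := ⟨_, rfl⟩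
  have hDz0 : Dz ≠ 0 := by
    rw [hDz]
    have : e * (dl p.1 p.2).natAbs ≠ 0 := by positivity
    exact_mod_cast this
  have hkey : ∀ p' ∈ {p' ∈ Pr x N A K₁ | (dl p'.1 p'.2).natAbs = (dl p.1 p.2).natAbs ∧
      ((e * (dl p.1 p.2).natAbs : ℕ) : ℤ) ∣ om e p.1 p.2 - om e p'.1 p'.2 ∧
      (Mz x K A p.1 p.2 ∩ Mz x K A p'.1 p'.2).Nonempty},
      (Dz ∣ (e * p.2.2 : ℤ) * (e * p'.1.2) - (e * p.1.2) * (e * p'.2.2) ∧
        Dz ∣ (e * p.2.2 : ℤ) * p'.1.1 - (e * p.1.2) * p'.2.1 ∧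
        Dz ∣ p.2.1 * (e * p'.1.2) - p.1.1 * (e * p'.2.2) ∧ Dz ∣ p.2.1 * p'.1.1 - p.1.1 * p'.2.1) ∧
      ((e * p.2.2 : ℤ) * (e * p'.1.2) - (e * p.1.2) * (e * p'.2.2)) / Dz ∈ Icc (-100 : ℤ) 100 ∧
      ((e * p.2.2 : ℤ) * p'.1.1 - (e * p.1.2) * p'.2.1) / Dz ∈ Icc (-100 : ℤ) 100 ∧
      (p.2.1 * (e * p'.1.2) - p.1.1 * (e * p'.2.2)) / Dz ∈ Icc (-100 : ℤ) 100 ∧
      (p.2.1 * p'.1.1 - p.1.1 * p'.2.1) / Dz ∈ Icc (-100 : ℤ) 100 := by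
    intro p' hp'
    rw [Finset.mem_filter] at hp'
    obtain ⟨hp1, hdd, hω, m, hm⟩ := hp'
    rw [Finset.mem_inter] at hm
    obtain ⟨m1, m2⟩ := hm
    unfold Mz at m1 m2
    rw [Finset.mem_filter] at m1 m2
    obtain ⟨g1, g2, g3⟩ := hPr p' hp1
    obtain ⟨y1', y2'⟩ := hcg p' hp1 hdd
    rw [← hDz] at y1 y2 y1' y2' hω
    -- replace `om e p'` by `om e p`
    have z1 : Dz ∣ (e * p'.2.2 : ℤ) - om e p.1 p.2 * (e * p'.1.2) := by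
      have e1 : (e * p'.2.2 : ℤ) - om e p.1 p.2 * (e * p'.1.2) =
          ((e * p'.2.2 : ℤ) - om e p'.1 p'.2 * (e * p'.1.2)) -
            (om e p.1 p.2 - om e p'.1 p'.2) * (e * p'.1.2) := by ring
      rw [e1]
      exact dvd_sub y1' (Dvd.dvd.mul_right hω _)
    have z2 : Dz ∣ p'.2.1 - om e p.1 p.2 * p'.1.1 := by
      have e1 : p'.2.1 - om e p.1 p.2 * p'.1.1 =
          (p'.2.1 - om e p'.1 p'.2 * p'.1.1) - (om e p.1 p.2 - om e p'.1 p'.2) * p'.1.1 := by ring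
      rw [e1]
      exact dvd_sub y2' (Dvd.dvd.mul_right hω _)
    have v1 := KIJ_dvd Dz _ _ _ _ _ y1 z1
    have v2 := KIJ_dvd Dz _ _ _ _ _ y1 z2
    have v3 := KIJ_dvd Dz _ _ _ _ _ y2 z1
    have v4 := KIJ_dvd Dz _ _ _ _ _ y2 z2
    obtain ⟨k1, k2, k3, k4⟩ := KIJ_bd hFFC x N A e m K hx hN hAx he p.1 p.2 p'.1 p'.2 hz g1 hdd m1.2 m2.2
    refine ⟨⟨v1, v2, v3, v4⟩, ?_, ?_, ?_, ?_⟩
    · rw [hDz] at v1 ⊢
      exact KIJ_int e _ _ he1 hD1 v1 k1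
    · rw [hDz] at v2 ⊢
      exact KIJ_int e _ _ he1 hD1 v2 k2
    · rw [hDz] at v3 ⊢
      exact KIJ_int e _ _ he1 hD1 v3 k3
    · rw [hDz] at v4 ⊢
      exact KIJ_int e _ _ he1 hD1 v4 k4
  obtain ⟨T, hT⟩ : ∃ T : Finset ℤ, T = Icc (-100 : ℤ) 100 := ⟨_, rfl⟩
  rw [← hT] at hkey
  have hT1 : #T = 201 := by
    rw [hT, Int.card_Icc]
    rfl
  have hcard : #(T ×ˢ T ×ˢ T ×ˢ T) = 201 ^ 4 := by
    rw [Finset.card_product, Finset.card_product, Finset.card_product, hT1]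
    norm_num
  rw [← hcard]
  refine Finset.card_le_card_of_injOn (fun p' =>
    (((e * p.2.2 : ℤ) * (e * p'.1.2) - (e * p.1.2) * (e * p'.2.2)) / Dz,
      ((e * p.2.2 : ℤ) * p'.1.1 - (e * p.1.2) * p'.2.1) / Dz,
      (p.2.1 * (e * p'.1.2) - p.1.1 * (e * p'.2.2)) / Dz,
      (p.2.1 * p'.1.1 - p.1.1 * p'.2.1) / Dz)) ?_ ?_
  · intro p' hp'
    obtain ⟨-, i1, i2, i3, i4⟩ := hkey p' hp'
    exact Finset.mem_coe.2 (Finset.mem_product.2 ⟨i1, Finset.mem_product.2 ⟨i2, Finset.mem_product.2 ⟨i3, i4⟩⟩⟩)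
  · intro p' hp' p'' hp'' heq
    obtain ⟨⟨v1, v2, v3, v4⟩, -⟩ := hkey p' hp'
    obtain ⟨⟨v1', v2', v3', v4'⟩, -⟩ := hkey p'' hp''
    have q1 := congrArg Prod.fst heq
    have q2 := congrArg (fun t => t.2.1) heq
    have q3 := congrArg (fun t => t.2.2.1) heq
    have q4 := congrArg (fun t => t.2.2.2) heq
    dsimp only at q1 q2 q3 q4
    have r1 := (Int.ediv_left_inj v1 v1').1 q1
    have r2 := (Int.ediv_left_inj v2 v2').1 q2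
    have r3 := (Int.ediv_left_inj v3 v3').1 q3
    have r4 := (Int.ediv_left_inj v4 v4').1 q4
    have hdet : (e * p.1.2 : ℤ) * p.2.1 - (e * p.2.2) * p.1.1 ≠ 0 := by
      have e1 : (e * p.1.2 : ℤ) * p.2.1 - (e * p.2.2) * p.1.1 = e * dl p.1 p.2 := by
        unfold dl
        ring
      rw [e1]
      have : (e : ℤ) ≠ 0 := by
        have : e ≠ 0 := by omega
        exact_mod_cast this
      exact mul_ne_zero this hdl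
    obtain ⟨s1, s2⟩ := KIJ_lin hdet r1 r3
    obtain ⟨s3, s4⟩ := KIJ_lin hdet r2 r4
    have he0 : (e : ℤ) ≠ 0 := by
      have : e ≠ 0 := by omega
      exact_mod_cast this
    have s1' := mul_left_cancel₀ he0 s1
    have s2' := mul_left_cancel₀ he0 s2
    exact Prod.ext (Prod.ext s3 s1') (Prod.ext s4 s2')

end Pool.Agent.FJ
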