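import Pool.Agent.helper95.FJ.SpecC

/-!
# Row fj:WPN (MP_ad8ced_nt): the sum for one pair
-/

set_option autoImplicit false

open Finset

namespace Pool.Agent.FJ

open Pool.Agent.FI

theorem WPN_in (hGPT : GPT_stmt) (x K₃ K₄ : ℕ) (hx : 1 ≤ x) (hK₃ : 1 ≤ K₃) (hK₄ : 1 ≤ K₄) (b : ℕ)
    (hb : b < K₃) (m l₁ l₂ : ℤ) (h : InC x K₃ K₄ b m l₁ l₂) :
    ((x : ℤ) < l₁ ∧ l₁ ≤ 2 * x) ∧ ((x : ℤ) < l₂ ∧ l₂ ≤ 2 * x) := by
  obtain ⟨-, -, -, -, -, -, hin, -⟩ := hGPT x (K₃ * K₄) hx (Nat.mul_pos hK₃ hK₄)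
  obtain ⟨i, hi, j, hj, -, h1, h2⟩ := h
  rw [Finset.mem_Ico] at hi
  rw [Finset.mem_range] at hj
  have hi' : i < K₃ * K₄ := lt_of_lt_of_le hi.2 (Nat.mul_le_mul_right K₄ hb)
  exact ⟨hin i hi' l₁ h1, hin j hj l₂ h2⟩

theorem WPN_uni (hGPT : GPT_stmt) (x K₃ K₄ : ℕ) (hx : 1 ≤ x) (hK₃ : 1 ≤ K₃) (hK₄ : 1 ≤ K₄) (b b' : ℕ)
    (m m' l₁ l₂ : ℤ) (h : InC x K₃ K₄ b m l₁ l₂) (h' : InC x K₃ K₄ b' m' l₁ l₂) : b = b' ∧ m = m' := by
  obtain ⟨-, -, -, -, -, huni, -, -⟩ := hGPT x (K₃ * K₄) hx (Nat.mul_pos hK₃ hK₄)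
  obtain ⟨i, hi, j, hj, e, h1, h2⟩ := h
  obtain ⟨i', hi', j', hj', e', h1', h2'⟩ := h'
  have ei := huni i i' l₁ h1 h1'
  have ej := huni j j' l₂ h2 h2'
  subst ei
  subst ej
  rw [Finset.mem_Ico] at hi hi'
  refine ⟨?_, e.symm.trans e'⟩
  have a1 : b < b' + 1 := by
    by_contra h
    have : (b' + 1) * K₄ ≤ b * K₄ := Nat.mul_le_mul_right K₄ (not_lt.1 h)
    omega
  have a2 : b' < b + 1 := by
    by_contra h
    have : (b + 1) * K₄ ≤ b' * K₄ := Nat.mul_le_mul_right K₄ (not_lt.1 h)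
    omega
  omega

theorem WPN_ex (hGPT : GPT_stmt) (x K₃ K₄ : ℕ) (hx : 1 ≤ x) (hK₃ : 1 ≤ K₃) (hK₄ : 1 ≤ K₄)
    (l₁ l₂ : ℤ) (h1 : (x : ℤ) < l₁) (h1' : l₁ ≤ 2 * x) (h2 : (x : ℤ) < l₂) (h2' : l₂ ≤ 2 * x) :
    ∃ c : ℕ × ℤ, c ∈ range K₃ ×ˢ Ioo (-((K₃ * K₄ : ℕ) : ℤ)) ((K₃ * K₄ : ℕ) : ℤ) ∧
      InC x K₃ K₄ c.1 c.2 l₁ l₂ := by
  obtain ⟨-, -, -, -, hex, -, -, -⟩ := hGPT x (K₃ * K₄) hx (Nat.mul_pos hK₃ hK₄)
  obtain ⟨i, hi, hi'⟩ := hex l₁ h1 h1'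
  obtain ⟨j, hj, hj'⟩ := hex l₂ h2 h2'
  refine ⟨(i / K₄, (j : ℤ) - i), ?_, ?_⟩
  · rw [Finset.mem_product, Finset.mem_range, Finset.mem_Ioo]
    refine ⟨?_, ?_, ?_⟩
    · exact Nat.div_lt_of_lt_mul (by rw [Nat.mul_comm]; exact hi)
    · show -((K₃ * K₄ : ℕ) : ℤ) < (j : ℤ) - i
      omega
    · show (j : ℤ) - i < ((K₃ * K₄ : ℕ) : ℤ)
      omega
  · refine ⟨i, ?_, j, Finset.mem_range.2 hj, rfl, hi', hj'⟩
    rw [Finset.mem_Ico]
    constructor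
    · exact Nat.div_mul_le_self i K₄
    · have := Nat.lt_div_mul_add (a := i) (b := K₄) hK₄
      show i < (i / K₄ + 1) * K₄
      rw [add_mul, one_mul]
      exact this

theorem WPN_ga (A : ℕ) (a : ℤ) : 0 ≤ ga A a ∧ ga A a ≤ 1 := by
  unfold ga
  split_ifs
  · exact ⟨zero_le_one, le_rfl⟩
  · exact ⟨le_rfl, zero_le_one⟩

/-- one coordinate in a mixed cell -/
theorem WPN_mix (A K₃ : ℕ) (hK₃ : 2 ≤ K₃) (a₀ a a₁ : ℤ) (h0 : 0 < a₀) (h0' : a₀ ≤ A)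
    (h1 : K₃ * |a - a₀| ≤ |a₀| + A) (h2 : K₃ * |a₁ - a₀| ≤ |a₀| + A) :
    |a| ≤ 2 * A ∧ (¬ (0 < a₁ ∧ a₁ ≤ A) → K₃ * |a| ≤ 4 * A ∨ K₃ * |a - A| ≤ 4 * A) := by
  have hK : (2 : ℤ) ≤ K₃ := by exact_mod_cast hK₃
  have e0 : |a₀| = a₀ := abs_of_pos h0
  rw [e0] at h1 h2
  have hn : 0 ≤ |a - a₀| := abs_nonneg _
  have h3 : 2 * |a - a₀| ≤ K₃ * |a - a₀| := mul_le_mul_of_nonneg_right hK hn
  have h4 : |a| ≤ |a - a₀| + a₀ := by
    have := abs_sub_abs_le_abs_sub a a₀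
    rw [e0] at this
    linarith
  refine ⟨by linarith, ?_⟩
  intro hna
  by_cases hpos : 0 < a₁
  · right
    have h5 : (A : ℤ) < a₁ := by
      by_contra h
      exact hna ⟨hpos, not_lt.1 h⟩
    have h6 : |a₁ - a₀| = a₁ - a₀ := abs_of_pos (by linarith)
    have h7 : |a - A| ≤ |a - a₀| + (A - a₀) := by
      have := abs_sub_le a a₀ (A : ℤ)
      have h8 : |a₀ - (A : ℤ)| = A - a₀ := by
        rw [abs_sub_comm]
        exact abs_of_nonneg (by linarith)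
      linarith
    rw [h6] at h2
    have h9 : K₃ * |a - A| ≤ K₃ * (|a - a₀| + (A - a₀)) := mul_le_mul_of_nonneg_left h7 (by linarith)
    have h10 : (K₃ : ℤ) * ((A : ℤ) - a₀) ≤ K₃ * (a₁ - a₀) :=
      mul_le_mul_of_nonneg_left (by linarith) (by linarith)
    rw [mul_add] at h9
    linarith
  · left
    have h6 : |a₁ - a₀| = a₀ - a₁ := by
      rw [abs_sub_comm]
      exact abs_of_pos (by linarith)
    rw [h6] at h2
    have h9 : K₃ * |a| ≤ K₃ * (|a - a₀| + a₀) := mul_le_mul_of_nonneg_left h4 (by linarith)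
    have h10 : (K₃ : ℤ) * a₀ ≤ K₃ * (a₀ - a₁) :=
      mul_le_mul_of_nonneg_left (by linarith) (by linarith)
    rw [mul_add] at h9
    linarith

theorem WPN (hGPT : GPT_stmt) (hVAN : VAN_stmt) (hREN : REN_stmt) (hGCL : GCL_stmt) : WPN_stmt := by
  classical
  intro om hom x Z N R A K₁ K₃ K₄ hx hZ hN hR hA hAx hK₁ hK₃ hK₄ hK hRN M lam hlam z hz z' hz' hD
  have hK₃' : 1 ≤ K₃ := by omega
  have hM : 0 ≤ M := (abs_nonneg _).trans (hlam.1 0)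
  have hdl : dl z z' ≠ 0 := by
    intro h
    rw [h] at hD
    simp at hD
  -- the support
  have hsup : ∀ w : ℤ × ℤ, lam (lc z w) * lam (lc z' w) * ga A (ac z w) * ga A (ac z' w) ≠ 0 →
      ((x : ℤ) < lc z w ∧ lc z w ≤ 2 * x) ∧ ((x : ℤ) < lc z' w ∧ lc z' w ≤ 2 * x) ∧
      (0 < ac z w ∧ ac z w ≤ A) ∧ (0 < ac z' w ∧ ac z' w ≤ A) := by
    intro w hw
    have h1 : lam (lc z w) ≠ 0 := fun h => hw (by rw [h]; ring)
    have h2 : lam (lc z' w) ≠ 0 := fun h => hw (by rw [h]; ring)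
    have h3 : ga A (ac z w) ≠ 0 := fun h => hw (by rw [h]; ring)
    have h4 : ga A (ac z' w) ≠ 0 := fun h => hw (by rw [h]; ring)
    refine ⟨⟨(hlam.2 _ h1).1, (hlam.2 _ h1).2.1⟩, ⟨(hlam.2 _ h2).1, (hlam.2 _ h2).2.1⟩, ?_, ?_⟩
    · by_contra h
      exact h3 (if_neg h)
    · by_contra h
      exact h4 (if_neg h)
  constructor
  · intro hlt
    unfold Tc
    refine Finset.sum_eq_zero fun w _ => ?_
    by_contra hw
    obtain ⟨⟨a1, a2⟩, ⟨a3, a4⟩, ⟨a5, a6⟩, ⟨a7, a8⟩⟩ := hsup w hw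
    have := (hREN x N A hx hN hA hAx z hz z' hz' w a1 a2 a3 a4 a5 a6 a7 a8).1
    omega
  -- the decomposition in cells
  obtain ⟨W, hW⟩ : ∃ W : Finset (ℤ × ℤ), W = {w ∈ Bx R | w.1 % 2 = 1 ∧ IsCoprime (lc z w) (dl z z')} :=
    ⟨_, rfl⟩
  obtain ⟨F, hF⟩ : ∃ F : ℤ × ℤ → ℝ, F = fun w => lam (lc z w) * lam (lc z' w) * ga A (ac z w) * ga A (ac z' w) :=
    ⟨_, rfl⟩
  obtain ⟨I, hI⟩ : ∃ I : Finset (ℕ × ℤ), I = range K₃ ×ˢ Ioo (-((K₃ * K₄ : ℕ) : ℤ)) ((K₃ * K₄ : ℕ) : ℤ) :=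
    ⟨_, rfl⟩
  have hTc : Tc R A lam z z' = ∑ w ∈ W, F w := by
    rw [hW, hF]
    unfold Tc
    refine Finset.sum_congr ?_ fun _ _ => rfl
    ext w
    simp only [Finset.mem_filter]
  have hdec : ∑ w ∈ W, F w = ∑ c ∈ I, ∑ w ∈ W with InC x K₃ K₄ c.1 c.2 (lc z w) (lc z' w), F w := by
    have h1 : ∑ c ∈ I, ∑ w ∈ W with InC x K₃ K₄ c.1 c.2 (lc z w) (lc z' w), F w =
        ∑ c ∈ I, ∑ w ∈ W, (if InC x K₃ K₄ c.1 c.2 (lc z w) (lc z' w) then F w else 0) :=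
      Finset.sum_congr rfl fun c _ => Finset.sum_filter _ _
    rw [h1, Finset.sum_comm]
    refine Finset.sum_congr rfl fun w _ => ?_
    by_cases hw : F w = 0
    · rw [hw]
      simp
    · rw [hF] at hw
      obtain ⟨⟨a1, a2⟩, ⟨a3, a4⟩, _, _⟩ := hsup w hw
      obtain ⟨c, hc, hcC⟩ := WPN_ex hGPT x K₃ K₄ hx hK₃' hK₄ _ _ a1 a2 a3 a4
      rw [← hI] at hc
      rw [Finset.sum_eq_single c]
      · rw [if_pos hcC]
      · intro c' _ hne
        rw [if_neg]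
        intro hC
        obtain ⟨e1, e2⟩ := WPN_uni hGPT x K₃ K₄ hx hK₃' hK₄ _ _ _ _ _ _ hC hcC
        exact hne (Prod.ext e1 e2)
      · intro h
        exact absurd hc h
  -- terms
  have hFM : ∀ w, |F w| ≤ M ^ 2 := by
    intro w
    rw [hF]
    show |lam (lc z w) * lam (lc z' w) * ga A (ac z w) * ga A (ac z' w)| ≤ M ^ 2
    rw [abs_mul, abs_mul, abs_mul, abs_of_nonneg (WPN_ga A (ac z w)).1, abs_of_nonneg (WPN_ga A (ac z' w)).1]
    have h1 : |lam (lc z w)| * |lam (lc z' w)| ≤ M * M :=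
      mul_le_mul (hlam.1 _) (hlam.1 _) (abs_nonneg _) hM
    have h2 : |lam (lc z w)| * |lam (lc z' w)| * ga A (ac z w) ≤ M * M * 1 :=
      mul_le_mul h1 (WPN_ga A _).2 (WPN_ga A _).1 (by positivity)
    have h3 : |lam (lc z w)| * |lam (lc z' w)| * ga A (ac z w) * ga A (ac z' w) ≤ M * M * 1 * 1 :=
      mul_le_mul h2 (WPN_ga A _).2 (WPN_ga A _).1 (by positivity)
    calc _ ≤ M * M * 1 * 1 := h3
      _ = M ^ 2 := by ring
  -- one cell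
  have hcell : ∀ c ∈ I, |∑ w ∈ W with InC x K₃ K₄ c.1 c.2 (lc z w) (lc z' w), F w| ≤
      M ^ 2 * (#{w ∈ bdN x R A K₃ z z' | InC x K₃ K₄ c.1 c.2 (lc z w) (lc z' w)} : ℝ) +
        (if c.2 ∈ Mz x (K₃ * K₄) A z z' then ∑ e ∈ ({1, 2} : Finset ℕ),
          |Eg x K₃ K₄ lam c.1 c.2 (e * (dl z z').natAbs) (om e z z')| else 0) := by
    intro c hc
    have hb : c.1 < K₃ := by
      rw [hI, Finset.mem_product, Finset.mem_range] at hc
      exact hc.1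
    have hn1 : 0 ≤ M ^ 2 * (#{w ∈ bdN x R A K₃ z z' | InC x K₃ K₄ c.1 c.2 (lc z w) (lc z' w)} : ℝ) := by
      positivity
    have hn2 : 0 ≤ (if c.2 ∈ Mz x (K₃ * K₄) A z z' then ∑ e ∈ ({1, 2} : Finset ℕ),
          |Eg x K₃ K₄ lam c.1 c.2 (e * (dl z z').natAbs) (om e z z')| else 0) := by
      split_ifs
      · exact Finset.sum_nonneg fun e _ => abs_nonneg _
      · exact le_rfl
    by_cases hgood : ∀ w : ℤ × ℤ, InC x K₃ K₄ c.1 c.2 (lc z w) (lc z' w) →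
        0 < ac z w ∧ ac z w ≤ A ∧ 0 < ac z' w ∧ ac z' w ≤ A
    · -- good cell
      by_cases hne : ∃ w ∈ W, InC x K₃ K₄ c.1 c.2 (lc z w) (lc z' w)
      · obtain ⟨w₀, _, hw₀⟩ := hne
        obtain ⟨a5, a6, a7, a8⟩ := hgood w₀ hw₀
        obtain ⟨⟨a1, a2⟩, a3, a4⟩ := WPN_in hGPT x K₃ K₄ hx hK₃' hK₄ c.1 hb c.2 _ _ hw₀
        have hMz : c.2 ∈ Mz x (K₃ * K₄) A z z' :=
          (hREN x N A hx hN hA hAx z hz z' hz' w₀ a1 a2 a3 a4 a5 a6 a7 a8).2 K₁ K₃ K₄ hK₁ hK₃' hK₄ hK hD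
            c.1 hb c.2 hw₀
        have hG := hGCL om hom x Z N R A K₃ K₄ hx hZ hN hR hAx hK₃' hK₄ hRN M lam hlam z hz z' hz' hdl
          c.1 hb c.2 hgood
        have hs : ∑ w ∈ W with InC x K₃ K₄ c.1 c.2 (lc z w) (lc z' w), F w =
            Eg x K₃ K₄ lam c.1 c.2 (1 * (dl z z').natAbs) (om 1 z z') -
              Eg x K₃ K₄ lam c.1 c.2 (2 * (dl z z').natAbs) (om 2 z z') := by
          rw [← hG]
          refine Finset.sum_congr ?_ ?_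
          · rw [hW]
            ext w
            simp only [Finset.mem_filter]
            constructor
            · rintro ⟨⟨h1, h2, h3⟩, h4⟩
              exact ⟨h1, h2, h3, h4⟩
            · rintro ⟨h1, h2, h3, h4⟩
              exact ⟨⟨h1, h2, h3⟩, h4⟩
          · intro w hw
            rw [Finset.mem_filter] at hw
            obtain ⟨_, _, _, hwC⟩ := hw
            obtain ⟨g1, g2, g3, g4⟩ := hgood w hwC
            rw [hF]
            show lam (lc z w) * lam (lc z' w) * ga A (ac z w) * ga A (ac z' w) = _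
            have e1 : ga A (ac z w) = 1 := if_pos ⟨g1, g2⟩
            have e2 : ga A (ac z' w) = 1 := if_pos ⟨g3, g4⟩
            rw [e1, e2, mul_one, mul_one]
        rw [if_pos hMz, hs]
        have hsum : ∑ e ∈ ({1, 2} : Finset ℕ), |Eg x K₃ K₄ lam c.1 c.2 (e * (dl z z').natAbs) (om e z z')| =
            |Eg x K₃ K₄ lam c.1 c.2 (1 * (dl z z').natAbs) (om 1 z z')| +
              |Eg x K₃ K₄ lam c.1 c.2 (2 * (dl z z').natAbs) (om 2 z z')| :=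
          Finset.sum_pair (by norm_num)
        rw [hsum]
        have := abs_sub (Eg x K₃ K₄ lam c.1 c.2 (1 * (dl z z').natAbs) (om 1 z z'))
          (Eg x K₃ K₄ lam c.1 c.2 (2 * (dl z z').natAbs) (om 2 z z'))
        linarith
      · have hs : ∑ w ∈ W with InC x K₃ K₄ c.1 c.2 (lc z w) (lc z' w), F w = 0 := by
          refine Finset.sum_eq_zero fun w hw => ?_
          rw [Finset.mem_filter] at hw
          exact absurd ⟨w, hw.1, hw.2⟩ hne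
        rw [hs, abs_zero]
        linarith
    · -- not good
      by_cases hne : ∃ w ∈ W, InC x K₃ K₄ c.1 c.2 (lc z w) (lc z' w) ∧ F w ≠ 0
      · obtain ⟨w₀, _, hw₀, hF₀⟩ := hne
        rw [hF] at hF₀
        obtain ⟨_, _, ⟨a5, a6⟩, ⟨a7, a8⟩⟩ := hsup w₀ hF₀
        obtain ⟨w₁, hw₁, hbad⟩ : ∃ w₁ : ℤ × ℤ, InC x K₃ K₄ c.1 c.2 (lc z w₁) (lc z' w₁) ∧
            ¬ (0 < ac z w₁ ∧ ac z w₁ ≤ A ∧ 0 < ac z' w₁ ∧ ac z' w₁ ≤ A) := by
          by_contra h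
          apply hgood
          intro w hw
          by_contra h'
          exact h ⟨w, hw, h'⟩
        obtain ⟨v1, v1'⟩ := hVAN x N A K₁ K₃ K₄ hx hN hA hK₁ hK₃' hK₄ hK z hz z' hz' hD c.1 hb c.2 w₁ w₀
          hw₁ hw₀
        have hall : ∀ w ∈ W, InC x K₃ K₄ c.1 c.2 (lc z w) (lc z' w) → w ∈ bdN x R A K₃ z z' := by
          intro w hwW hw
          obtain ⟨v, v'⟩ := hVAN x N A K₁ K₃ K₄ hx hN hA hK₁ hK₃' hK₄ hK z hz z' hz' hD c.1 hb c.2 w w₀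
            hw hw₀
          obtain ⟨m1, m2⟩ := WPN_mix A K₃ hK₃ (ac z w₀) (ac z w) (ac z w₁) a5 a6 v v1
          obtain ⟨m1', m2'⟩ := WPN_mix A K₃ hK₃ (ac z' w₀) (ac z' w) (ac z' w₁) a7 a8 v' v1'
          obtain ⟨⟨a1, _⟩, a3, _⟩ := WPN_in hGPT x K₃ K₄ hx hK₃' hK₄ c.1 hb c.2 _ _ hw
          have hwB : w ∈ Bx R := by
            rw [hW, Finset.mem_filter] at hwW
            exact hwW.1
          unfold bdN
          rw [Finset.mem_filter]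
          refine ⟨hwB, a1, a3, m1, m1', ?_⟩
          by_cases hz1 : 0 < ac z w₁ ∧ ac z w₁ ≤ A
          · have hz2 : ¬ (0 < ac z' w₁ ∧ ac z' w₁ ≤ A) := fun h => hbad ⟨hz1.1, hz1.2, h.1, h.2⟩
            rcases m2' hz2 with h | h
            · exact Or.inr (Or.inr (Or.inl h))
            · exact Or.inr (Or.inr (Or.inr h))
          · rcases m2 hz1 with h | h
            · exact Or.inl h
            · exact Or.inr (Or.inl h)
        have hs : |∑ w ∈ W with InC x K₃ K₄ c.1 c.2 (lc z w) (lc z' w), F w| ≤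
            M ^ 2 * (#{w ∈ bdN x R A K₃ z z' | InC x K₃ K₄ c.1 c.2 (lc z w) (lc z' w)} : ℝ) := by
          calc |∑ w ∈ W with InC x K₃ K₄ c.1 c.2 (lc z w) (lc z' w), F w|
              ≤ ∑ w ∈ W with InC x K₃ K₄ c.1 c.2 (lc z w) (lc z' w), |F w| :=
                Finset.abs_sum_le_sum_abs _ _
            _ ≤ ∑ w ∈ bdN x R A K₃ z z' with InC x K₃ K₄ c.1 c.2 (lc z w) (lc z' w), |F w| := by
                refine Finset.sum_le_sum_of_subset_of_nonneg ?_ fun w _ _ => abs_nonneg _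
                intro w hw
                rw [Finset.mem_filter] at hw ⊢
                exact ⟨hall w hw.1 hw.2, hw.2⟩
            _ ≤ ∑ w ∈ bdN x R A K₃ z z' with InC x K₃ K₄ c.1 c.2 (lc z w) (lc z' w), M ^ 2 :=
                Finset.sum_le_sum fun w _ => hFM w
            _ = _ := by
                rw [Finset.sum_const, nsmul_eq_mul, mul_comm]
        linarith
      · have hs : ∑ w ∈ W with InC x K₃ K₄ c.1 c.2 (lc z w) (lc z' w), F w = 0 := by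
          refine Finset.sum_eq_zero fun w hw => ?_
          rw [Finset.mem_filter] at hw
          by_contra h
          exact hne ⟨w, hw.1, hw.2, h⟩
        rw [hs, abs_zero]
        linarith
  -- the boundary terms
  have hbd : ∑ c ∈ I, (#{w ∈ bdN x R A K₃ z z' | InC x K₃ K₄ c.1 c.2 (lc z w) (lc z' w)} : ℝ) ≤
      (#(bdN x R A K₃ z z') : ℝ) := by
    have h1 : ∀ c ∈ I, (#{w ∈ bdN x R A K₃ z z' | InC x K₃ K₄ c.1 c.2 (lc z w) (lc z' w)} : ℝ) =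
        ∑ w ∈ bdN x R A K₃ z z', (if InC x K₃ K₄ c.1 c.2 (lc z w) (lc z' w) then 1 else 0) := by
      intro c _
      rw [Finset.card_filter]
      push_cast
      rfl
    rw [Finset.sum_congr rfl h1, Finset.sum_comm]
    have h2 : (#(bdN x R A K₃ z z') : ℝ) = ∑ w ∈ bdN x R A K₃ z z', (1 : ℝ) := by
      rw [Finset.sum_const, nsmul_eq_mul, mul_one]
    rw [h2]
    refine Finset.sum_le_sum fun w _ => ?_
    by_cases hw : ∃ c ∈ I, InC x K₃ K₄ c.1 c.2 (lc z w) (lc z' w)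
    · obtain ⟨c, hc, hcC⟩ := hw
      rw [Finset.sum_eq_single c]
      · rw [if_pos hcC]
      · intro c' _ hne
        rw [if_neg]
        intro hC
        obtain ⟨e1, e2⟩ := WPN_uni hGPT x K₃ K₄ hx hK₃' hK₄ _ _ _ _ _ _ hC hcC
        exact hne (Prod.ext e1 e2)
      · intro h
        exact absurd hc h
    · rw [Finset.sum_eq_zero]
      · exact zero_le_one
      · intro c hc
        rw [if_neg]
        intro h
        exact hw ⟨c, hc, h⟩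
  -- the main terms
  have hmain : ∑ c ∈ I, (if c.2 ∈ Mz x (K₃ * K₄) A z z' then ∑ e ∈ ({1, 2} : Finset ℕ),
          |Eg x K₃ K₄ lam c.1 c.2 (e * (dl z z').natAbs) (om e z z')| else 0) =
      ∑ b ∈ range K₃, ∑ m ∈ Mz x (K₃ * K₄) A z z', ∑ e ∈ ({1, 2} : Finset ℕ),
        |Eg x K₃ K₄ lam b m (e * (dl z z').natAbs) (om e z z')| := by
    rw [hI, Finset.sum_product]
    refine Finset.sum_congr rfl fun b _ => ?_
    rw [← Finset.sum_filter]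
    refine Finset.sum_congr ?_ fun _ _ => rfl
    ext m
    rw [Finset.mem_filter]
    constructor
    · exact fun h => h.2
    · intro h
      refine ⟨?_, h⟩
      unfold Mz at h
      rw [Finset.mem_filter] at h
      exact h.1
  rw [hTc, hdec]
  calc |∑ c ∈ I, ∑ w ∈ W with InC x K₃ K₄ c.1 c.2 (lc z w) (lc z' w), F w|
      ≤ ∑ c ∈ I, |∑ w ∈ W with InC x K₃ K₄ c.1 c.2 (lc z w) (lc z' w), F w| :=
        Finset.abs_sum_le_sum_abs _ _
    _ ≤ ∑ c ∈ I, (M ^ 2 * (#{w ∈ bdN x R A K₃ z z' | InC x K₃ K₄ c.1 c.2 (lc z w) (lc z' w)} : ℝ) +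
        (if c.2 ∈ Mz x (K₃ * K₄) A z z' then ∑ e ∈ ({1, 2} : Finset ℕ),
          |Eg x K₃ K₄ lam c.1 c.2 (e * (dl z z').natAbs) (om e z z')| else 0)) :=
        Finset.sum_le_sum hcell
    _ ≤ _ := by
        rw [Finset.sum_add_distrib, hmain, ← Finset.mul_sum]
        have := mul_le_mul_of_nonneg_left hbd (sq_nonneg M)
        linarith

end Pool.Agent.FJ
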